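import Pool.Agent.AEN.Stmts

/-!
# Anderson model, the cheap end: row ZON (zero-one law for bounded Green vectors)
-/

set_option autoImplicit false

open MeasureTheory ProbabilityTheory Function Filter

open scoped ENNReal BigOperators InnerProductSpace Topology

noncomputable section

namespace Pool.Agent.AEN.H31

open Pool.Agent.Anderson Pool.Agent.Loc Pool.Agent.Helper54.Bal Pool.Agent.AEN

theorem nsc_gl {σ : ℝ} (hσ : σ ≠ 0) : NullSingletonClass (gl σ) where
  measure_singleton x := by
    obtain ⟨-, h⟩ := bddDens_gl hσ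
    have := h x x
    rw [Set.Icc_self, sub_self, mul_zero, ENNReal.ofReal_zero] at this
    exact nonpos_iff_eq_zero.1 this

theorem zon (hASL : AslStmt) (hDET : DetStmt) (hMEA : MeaStmt) (hTRA : TraStmt)
    (hERG : LE.CH.ErgStmt) : ZonStmt := by
  intro d σ E hd hσ h
  have := nsc_gl hσ
  set A : Set (Site d → ℝ) := {V | ∀ x, Bd V E x} with hA
  have hAm : MeasurableSet A := by
    rw [hA, Set.setOf_forall]
    exact MeasurableSet.iInter fun x => (hMEA d E x 0).1
  have hinv : ∀ a : Site d, tau a ⁻¹' A = A := by
    intro a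
    ext V
    simp only [hA, Set.mem_preimage, Set.mem_setOf_eq]
    constructor
    · intro hV x
      have := (hTRA d V E a (x - a) 0).1.1 (hV (x - a))
      rwa [sub_add_cancel] at this
    · intro hV x
      exact (hTRA d V E a x 0).1.2 (hV (x + a))
  have h0 : PP d (gl σ) A = 0 := by
    rcases hERG d (gl σ) A hd hAm hinv with h1 | h1
    · exact h1
    · exfalso
      apply h
      have h2 : PP d (gl σ) Aᶜ = 0 := (prob_compl_eq_zero_iff hAm).2 h1
      refine measure_mono_null (fun V hV => ?_) h2
      intro hVA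
      exact hV (hVA 0)
  have h1 : ∀ᵐ V ∂(PP d (gl σ)), V ∉ A := measure_eq_zero_iff_ae_notMem.1 h0
  filter_upwards [h1, hASL d (gl σ) E] with V hV hV2
  rcases hDET d V E hV2 with h3 | h3
  · exact absurd h3 hV
  · exact h3

end Pool.Agent.AEN.H31
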